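import Pool.Agent.Helper75.PZ.Stmts2

set_option autoImplicit false

universe u

open Module TensorProduct

namespace Pool.Agent.Helper11.PZ

open Pool.Agent.Helper75.PZ

/-- the dilation of the first coordinate -/
def dil : G2 →+ G2 where
  toFun g := toLex (6 * (ofLex g).1, (ofLex g).2)
  map_zero' := by
    apply ofLex.injective
    rfl
  map_add' a b := by
    apply ofLex.injective
    show (6 * ((ofLex a).1 + (ofLex b).1), (ofLex a).2 + (ofLex b).2) =
      (6 * (ofLex a).1 + 6 * (ofLex b).1, (ofLex a).2 + (ofLex b).2)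
    rw [mul_add]

theorem dil_inj : Function.Injective dil := by
  intro a b h
  have h1 : (6 * (ofLex a).1, (ofLex a).2) = (6 * (ofLex b).1, (ofLex b).2) :=
    congrArg ofLex h
  apply ofLex.injective
  have h2 := congrArg Prod.fst h1
  have h3 := congrArg Prod.snd h1
  dsimp only at h2 h3
  exact Prod.ext (by omega) h3

theorem dil_le (a b : G2) : dil a ≤ dil b ↔ a ≤ b := by
  rw [Prod.Lex.le_iff, Prod.Lex.le_iff]
  show (6 * (ofLex a).1 < 6 * (ofLex b).1 ∨
    6 * (ofLex a).1 = 6 * (ofLex b).1 ∧ (ofLex a).2 ≤ (ofLex b).2) ↔ _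
  constructor
  · rintro (h | ⟨h, h'⟩)
    · left; omega
    · right; exact ⟨by omega, h'⟩
  · rintro (h | ⟨h, h'⟩)
    · left; omega
    · right; exact ⟨by omega, h'⟩

/-- row PSE -/
theorem st_PSE : ST_PSE.{u} := by
  intro F M _ _ _
  refine ⟨HahnSeries.embDomainAlgHom dil dil_inj dil_le, ?_, ?_⟩
  · intro h γ γ' h1 h2
    have h3 : γ' = dil γ := by
      apply ofLex.injective
      exact Prod.ext h1 h2
    rw [h3]
    exact HahnSeries.embDomain_coeff
  · intro h γ' hg
    refine HahnSeries.embDomain_of_notMem_range ?_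
    rintro ⟨γ, rfl⟩
    exact hg ⟨(ofLex γ).1, rfl⟩

end Pool.Agent.Helper11.PZ
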